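import Pool.Agent.H85.KS2.Targets

/-!
Board ks2_modules, row CTP: the number of solutions for a pair of shifts.
-/

set_option autoImplicit false

namespace Pool.Agent.H74.KS2.CTP

open Pool.Agent.H98.KS Pool.Agent.H85.KS2

theorem card_shift {ι : Type} [DecidableEq ι] (X : Finset ι) (S : ι → ℤ) (n : ℤ) :
    ((X ×ˢ X).filter fun p => S p.1 = S p.2 + n).card =
      ∑ m ∈ X.image S, (X.filter fun x => S x = m + n).card * (X.filter fun x => S x = m).card := by
  rw [Finset.card_eq_sum_card_fiberwise (f := fun p => S p.2) (t := X.image S)]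
  · refine Finset.sum_congr rfl fun m _ => ?_
    rw [← Finset.card_product]
    congr 1
    ext p
    simp only [Finset.mem_filter, Finset.mem_product]
    constructor
    · rintro ⟨⟨⟨h1, h2⟩, h3⟩, h4⟩
      exact ⟨⟨h1, by rw [h3, h4]⟩, h2, h4⟩
    · rintro ⟨⟨h1, h3⟩, h2, h4⟩
      exact ⟨⟨⟨h1, h2⟩, by rw [h3, h4]⟩, h4⟩
  · intro p hp
    have hp' := (Finset.mem_filter.1 hp).1
    exact Finset.mem_coe.2 (Finset.mem_image_of_mem S (Finset.mem_product.1 hp').2)

theorem cauchy {ι : Type} [DecidableEq ι] (X : Finset ι) (S : ι → ℤ) (n : ℤ) :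
    ((X ×ˢ X).filter fun p => S p.1 = S p.2 + n).card ≤
      ((X ×ˢ X).filter fun p => S p.1 = S p.2).card := by
  have h0 := card_shift X S 0
  simp only [add_zero] at h0
  rw [h0, card_shift X S n]
  set r : ℤ → ℕ := fun m => (X.filter fun x => S x = m).card with hr
  have h1 : ∑ m ∈ X.image S, r (m + n) ^ 2 ≤ ∑ m ∈ X.image S, r m ^ 2 := by
    have h2 := Finset.sum_map (X.image S) (addRightEmbedding n) fun m => r m ^ 2
    simp only [addRightEmbedding_apply] at h2
    rw [← h2]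
    refine Finset.sum_le_sum_of_ne_zero fun m _ hm => ?_
    have h3 : r m ≠ 0 := fun h => hm (by rw [h]; rfl)
    obtain ⟨x, hx⟩ := Finset.card_pos.1 (Nat.pos_of_ne_zero h3)
    have hx' := Finset.mem_filter.1 hx
    exact Finset.mem_image.2 ⟨x, hx'.1, hx'.2⟩
  have h2 : 2 * ∑ m ∈ X.image S, r (m + n) * r m ≤ 2 * ∑ m ∈ X.image S, r m * r m := by
    calc 2 * ∑ m ∈ X.image S, r (m + n) * r m = ∑ m ∈ X.image S, 2 * (r (m + n) * r m) := by
          rw [Finset.mul_sum]
      _ ≤ ∑ m ∈ X.image S, (r (m + n) ^ 2 + r m ^ 2) := by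
          refine Finset.sum_le_sum fun m _ => ?_
          have := two_mul_le_add_sq (r (m + n)) (r m)
          rw [mul_assoc] at this
          exact this
      _ = ∑ m ∈ X.image S, r (m + n) ^ 2 + ∑ m ∈ X.image S, r m ^ 2 := Finset.sum_add_distrib
      _ ≤ ∑ m ∈ X.image S, r m ^ 2 + ∑ m ∈ X.image S, r m ^ 2 := Nat.add_le_add_right h1 _
      _ = 2 * ∑ m ∈ X.image S, r m * r m := by
          rw [← two_mul]
          congr 1
          exact Finset.sum_congr rfl fun m _ => sq (r m)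
  exact Nat.le_of_mul_le_mul_left h2 (by norm_num)

theorem dvd_dl (k : ℕ) (h u : ℤ) : h ∣ dl k h u := by
  have := sub_dvd_pow_sub_pow (u + h) u k
  rwa [add_sub_cancel_left] at this

theorem ks2_CTP : T_CTP := by
  classical
  intro k s L h h'
  set X : Finset (Fin s → ℤ) := Fintype.piFinset fun _ : Fin s => JJ L with hX
  set S : (Fin s → ℤ) → ℤ := fun x => ∑ i, dl k h (x i) with hS
  have hdvd : ∀ x, h ∣ S x := fun x => Finset.dvd_sum fun i _ => dvd_dl k h (x i)
  have hNP : NP k s L h h' = ∑ q ∈ JJ L ×ˢ JJ L,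
      ((((X ×ˢ X) ×ˢ (JJ L ×ˢ JJ L)).filter fun p =>
        S p.1.1 + dl k h' p.2.1 = S p.1.2 + dl k h' p.2.2).filter fun p => p.2 = q).card := by
    unfold NP
    rw [Finset.card_eq_sum_card_fiberwise (f := fun p => p.2) (t := JJ L ×ˢ JJ L)]
    intro p hp
    have hp' := (Finset.mem_filter.1 hp).1
    exact Finset.mem_coe.2 (Finset.mem_product.1 hp').2
  have hfib : ∀ q ∈ JJ L ×ˢ JJ L,
      ((((X ×ˢ X) ×ˢ (JJ L ×ˢ JJ L)).filter fun p =>
        S p.1.1 + dl k h' p.2.1 = S p.1.2 + dl k h' p.2.2).filter fun p => p.2 = q).card ≤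
      if h ∣ dl k h' q.1 - dl k h' q.2 then rr s (JJ L) (dl k h) else 0 := by
    intro q _
    set A := ((((X ×ˢ X) ×ˢ (JJ L ×ˢ JJ L)).filter fun p =>
        S p.1.1 + dl k h' p.2.1 = S p.1.2 + dl k h' p.2.2).filter fun p => p.2 = q) with hA
    have hmem : ∀ p ∈ A, p.1 ∈ X ×ˢ X ∧ S p.1.1 + dl k h' q.1 = S p.1.2 + dl k h' q.2 ∧
        p.2 = q := by
      intro p hp
      have h1 := Finset.mem_filter.1 hp
      have h2 := Finset.mem_filter.1 h1.1
      refine ⟨(Finset.mem_product.1 h2.1).1, ?_, h1.2⟩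
      have h3 := h2.2
      rwa [h1.2] at h3
    split_ifs with hd
    · have h1 : A.card ≤
          ((X ×ˢ X).filter fun p => S p.1 = S p.2 + (dl k h' q.2 - dl k h' q.1)).card := by
        refine Finset.card_le_card_of_injOn (fun p => p.1) ?_ ?_
        · intro p hp
          obtain ⟨h1, h2, -⟩ := hmem p hp
          refine Finset.mem_coe.2 (Finset.mem_filter.2 ⟨h1, ?_⟩)
          linarith
        · intro p hp p' hp' hpp
          obtain ⟨-, -, h1⟩ := hmem p hp
          obtain ⟨-, -, h2⟩ := hmem p' hp'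
          exact Prod.ext hpp (h1.trans h2.symm)
      exact h1.trans (cauchy X S _)
    · rw [Nat.le_zero, Finset.card_eq_zero, Finset.eq_empty_iff_forall_notMem]
      intro p hp
      obtain ⟨-, h2, -⟩ := hmem p hp
      apply hd
      have h3 : dl k h' q.1 - dl k h' q.2 = S p.1.2 - S p.1.1 := by linarith
      rw [h3]
      exact dvd_sub (hdvd _) (hdvd _)
  rw [hNP]
  refine (Finset.sum_le_sum hfib).trans (le_of_eq ?_)
  rw [← Finset.sum_filter, Finset.sum_const, smul_eq_mul, mul_comm]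
  rfl

end Pool.Agent.H74.KS2.CTP
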